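import Pool.Agent.W779.LT.Poly

/-!
Matrix part of the one-dimensional Lieb-Thirring argument.
-/

set_option autoImplicit false

namespace Pool.Agent.W779.LT

open Polynomial Matrix

variable {ι : Type*} [Fintype ι] [DecidableEq ι]

/-- `(L_H + R_H)^n Q`. -/
def wmat (H Q : Matrix ι ι ℂ) : ℕ → Matrix ι ι ℂ
  | 0 => Q
  | n + 1 => H * wmat H Q n + wmat H Q n * H

lemma wmat_conj (H Q V W : Matrix ι ι ℂ) (hV : V * W = 1) (n : ℕ) :
    wmat (W * H * V) (W * Q * V) n = W * wmat H Q n * V := by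
  induction n with
  | zero => rfl
  | succ n ih =>
    simp only [wmat, ih]
    have h1 : W * H * V * (W * wmat H Q n * V) = W * (H * (V * W) * wmat H Q n) * V := by
      simp only [Matrix.mul_assoc]
    have h2 : W * wmat H Q n * V * (W * H * V) = W * (wmat H Q n * (V * W) * H) * V := by
      simp only [Matrix.mul_assoc]
    rw [h1, h2, hV]
    simp only [Matrix.mul_one, Matrix.mul_add, Matrix.add_mul, Matrix.mul_assoc]

/-- The derivative of `wmat`. -/
def wder (H Q H' Q' : Matrix ι ι ℂ) : ℕ → Matrix ι ι ℂ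
  | 0 => Q'
  | n + 1 => H' * wmat H Q n + H * wder H Q H' Q' n
      + (wder H Q H' Q' n * H + wmat H Q n * H')

omit [DecidableEq ι] in
lemma hasDerivAt_mul_entry {A B : ℝ → Matrix ι ι ℂ} {A' B' : Matrix ι ι ℂ} {x : ℝ}
    (hA : ∀ i j, HasDerivAt (fun y => A y i j) (A' i j) x)
    (hB : ∀ i j, HasDerivAt (fun y => B y i j) (B' i j) x) (i j : ι) :
    HasDerivAt (fun y => (A y * B y) i j) ((A' * B x + A x * B') i j) x := by
  simp only [Matrix.mul_apply, Matrix.add_apply, ← Finset.sum_add_distrib]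
  refine HasDerivAt.fun_sum fun k _ => ?_
  exact (hA i k).mul (hB k j)

omit [DecidableEq ι] in
lemma hasDerivAt_wmat {H Q : ℝ → Matrix ι ι ℂ} {H' Q' : Matrix ι ι ℂ} {x : ℝ}
    (hH : ∀ i j, HasDerivAt (fun y => H y i j) (H' i j) x)
    (hQ : ∀ i j, HasDerivAt (fun y => Q y i j) (Q' i j) x) (n : ℕ) (i j : ι) :
    HasDerivAt (fun y => wmat (H y) (Q y) n i j) (wder (H x) (Q x) H' Q' n i j) x := by
  induction n generalizing i j with
  | zero => exact hQ i j
  | succ n ih =>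
    have h1 := hasDerivAt_mul_entry hH ih i j
    have h2 := hasDerivAt_mul_entry ih hH i j
    exact h1.add h2

lemma wmat_diag (v : ι → ℝ) (Q : Matrix ι ι ℂ) (n : ℕ) (i j : ι) :
    wmat (diagonal fun i => (v i : ℂ)) Q n i j = (((v i + v j) ^ n : ℝ) : ℂ) * Q i j := by
  induction n with
  | zero => simp [wmat]
  | succ n ih =>
    simp only [wmat, Matrix.add_apply, Matrix.diagonal_mul, Matrix.mul_diagonal, ih]
    push_cast
    ring

lemma wder_diag (v : ι → ℝ) (Q Q' : Matrix ι ι ℂ) (w : ℝ) (n : ℕ) (i j : ι) :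
    wder (diagonal fun i => (v i : ℂ)) Q ((w : ℂ) • Q) Q' n i j
      = (((v i + v j) ^ n : ℝ) : ℂ) * Q' i j
        + (w : ℂ) * ∑ l, Q i l * Q l j *
          ((dpow n (v i + v j) (v l + v j) + dpow n (v i + v j) (v i + v l) : ℝ) : ℂ) := by
  induction n with
  | zero => simp [wder, dpow]
  | succ n ih =>
    set d : Matrix ι ι ℂ := diagonal fun i => (v i : ℂ) with hd
    have h1 : (((w : ℂ) • Q) * wmat d Q n) i j
        = (w : ℂ) * ∑ l, Q i l * ((((v l + v j) ^ n : ℝ) : ℂ) * Q l j) := by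
      rw [Matrix.smul_mul, Matrix.smul_apply, Matrix.mul_apply, smul_eq_mul]
      simp only [hd, wmat_diag]
    have h2 : (wmat d Q n * ((w : ℂ) • Q)) i j
        = (w : ℂ) * ∑ l, ((((v i + v l) ^ n : ℝ) : ℂ) * Q i l) * Q l j := by
      rw [Matrix.mul_smul, Matrix.smul_apply, Matrix.mul_apply, smul_eq_mul]
      simp only [hd, wmat_diag]
    have h3 : (d * wder d Q ((w : ℂ) • Q) Q' n) i j
        = (v i : ℂ) * wder d Q ((w : ℂ) • Q) Q' n i j := by
      rw [hd, Matrix.diagonal_mul]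
    have h4 : (wder d Q ((w : ℂ) • Q) Q' n * d) i j
        = wder d Q ((w : ℂ) • Q) Q' n i j * (v j : ℂ) := by
      rw [hd, Matrix.mul_diagonal]
    simp only [wder, Matrix.add_apply]
    rw [h1, h2, h3, h4, ih]
    have e1 : ∀ a b s t c X : ℂ,
        (w : ℂ) * a + s * (c + (w : ℂ) * X) + ((c + (w : ℂ) * X) * t + (w : ℂ) * b)
        = (s + t) * c + (w : ℂ) * ((s + t) * X + a + b) := by
      intros; ring
    rw [e1]
    congr 1
    · push_cast; ring
    · congr 1
      rw [Finset.mul_sum, ← Finset.sum_add_distrib, ← Finset.sum_add_distrib]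
      refine Finset.sum_congr rfl fun l _ => ?_
      simp only [dpow]
      push_cast
      ring

/-- Trace pairing. -/
noncomputable def tpair (H Q : Matrix ι ι ℂ) (n : ℕ) : ℂ := (Q * wmat H Q n).trace

lemma tpair_conj (H Q V W : Matrix ι ι ℂ) (hV : V * W = 1) (n : ℕ) :
    tpair (W * H * V) (W * Q * V) n = tpair H Q n := by
  rw [tpair, wmat_conj _ _ _ _ hV]
  have h1 : W * Q * V * (W * wmat H Q n * V) = W * (Q * (V * W) * wmat H Q n) * V := by
    simp only [Matrix.mul_assoc]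
  rw [h1, hV, Matrix.mul_one, Matrix.trace_mul_comm, ← Matrix.mul_assoc, hV, Matrix.one_mul]
  rfl

omit [DecidableEq ι] in
lemma hasDerivAt_tpair {H Q : ℝ → Matrix ι ι ℂ} {H' Q' : Matrix ι ι ℂ} {x : ℝ}
    (hH : ∀ i j, HasDerivAt (fun y => H y i j) (H' i j) x)
    (hQ : ∀ i j, HasDerivAt (fun y => Q y i j) (Q' i j) x) (n : ℕ) :
    HasDerivAt (fun y => tpair (H y) (Q y) n)
      ((Q' * wmat (H x) (Q x) n + Q x * wder (H x) (Q x) H' Q' n).trace) x := by
  simp only [tpair, Matrix.trace, Matrix.diag]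
  refine HasDerivAt.fun_sum fun k _ => ?_
  exact hasDerivAt_mul_entry hQ (hasDerivAt_wmat hH hQ n) k k

/-- The rank one matrix `U U*`. -/
def rk (U : ι → ℂ) : Matrix ι ι ℂ := fun i j => U i * star (U j)

/-- The derivative of `rk`. -/
def rk' (U P : ι → ℂ) : Matrix ι ι ℂ := fun i j => P i * star (U j) + U i * star (P j)

lemma trace_der_diag (v : ι → ℝ) (U P : ι → ℂ) (w : ℝ) (n : ℕ) :
    (rk' U P * wmat (diagonal fun i => (v i : ℂ)) (rk U) n
      + rk U * wder (diagonal fun i => (v i : ℂ)) (rk U) ((w : ℂ) • rk U) (rk' U P) n).trace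
    = ((∑ k, ∑ j, ((v j + v k) ^ n * (2 * (P k * star (U k)).re * ‖U j‖ ^ 2
        + 2 * (P j * star (U j)).re * ‖U k‖ ^ 2)
        + w * ∑ l, ‖U k‖ ^ 2 * ‖U j‖ ^ 2 * ‖U l‖ ^ 2 *
          (dpow n (v j + v k) (v l + v k) + dpow n (v j + v k) (v j + v l))) : ℝ) : ℂ) := by
  simp only [Matrix.trace, Matrix.diag, Matrix.add_apply, Matrix.mul_apply]
  rw [Complex.ofReal_sum]
  refine Finset.sum_congr rfl fun k _ => ?_
  rw [Complex.ofReal_sum, ← Finset.sum_add_distrib]
  refine Finset.sum_congr rfl fun j _ => ?_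
  rw [wmat_diag, wder_diag]
  have hn : ∀ z : ℂ, ((‖z‖ ^ 2 : ℝ) : ℂ) = z * star z := fun z => by
    rw [← Complex.normSq_eq_norm_sq, Complex.star_def, Complex.mul_conj]
  have hre : ∀ z : ℂ, 2 * ((z.re : ℝ) : ℂ) = z + star z := fun z => by
    rw [Complex.star_def, Complex.add_conj]; push_cast; ring
  rw [Complex.ofReal_add, Complex.ofReal_mul, Complex.ofReal_add, Complex.ofReal_mul,
    Complex.ofReal_mul, Complex.ofReal_mul, Complex.ofReal_mul, Complex.ofReal_ofNat, hre, hre,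
    hn, hn, Complex.ofReal_mul, Complex.ofReal_sum]
  simp only [star_mul', star_star]
  rw [mul_add (rk U k j), ← add_assoc]
  congr 1
  · simp only [rk, rk']
    push_cast
    ring
  · rw [mul_left_comm, Finset.mul_sum]
    congr 1
    refine Finset.sum_congr rfl fun l _ => ?_
    rw [Complex.ofReal_mul, Complex.ofReal_mul, Complex.ofReal_mul, hn, hn, hn]
    simp only [rk]
    ring

omit [DecidableEq ι] in
/-- The scalar inequality behind the calibration. -/
lemma real_ineq (v q r p : ι → ℝ) (F : ℝ → ℝ) (G : ℝ → ℝ → ℝ) {ω : ℝ}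
    (hq : ∀ k, 0 ≤ q k) (hp : ∀ k, ∀ t : ℝ, 0 ≤ p k + 2 * t * r k + t ^ 2 * q k)
    (hG : ∀ j k l, 1 + F (v j + v k) * F (v l + v k) ≤ G (v j + v k) (v l + v k)) :
    -(ω / 2) * ∑ k, ∑ j, (F (v j + v k) * (2 * r k * q j + 2 * r j * q k)
        + ω * ∑ l, q k * q j * q l * (G (v j + v k) (v l + v k) + G (v j + v k) (v j + v l)))
      ≤ ∑ k, p k - ω ^ 2 * (∑ k, q k) ^ 3 := by
  set κ : ι → ℝ := fun k => ∑ j, F (v j + v k) * q j with hκ
  have h1 : ∑ k, ∑ j, F (v j + v k) * (2 * r k * q j + 2 * r j * q k) = 4 * ∑ k, r k * κ k := by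
    have a1 : ∑ k, ∑ j, F (v j + v k) * (2 * r k * q j) = 2 * ∑ k, r k * κ k := by
      rw [Finset.mul_sum]
      refine Finset.sum_congr rfl fun k _ => ?_
      rw [hκ, Finset.mul_sum, Finset.mul_sum]
      refine Finset.sum_congr rfl fun j _ => ?_
      ring
    have a2 : ∑ k, ∑ j, F (v j + v k) * (2 * r j * q k) = 2 * ∑ k, r k * κ k := by
      rw [Finset.sum_comm, ← a1]
      refine Finset.sum_congr rfl fun k _ => Finset.sum_congr rfl fun j _ => ?_
      rw [add_comm (v k)]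
    simp only [mul_add, Finset.sum_add_distrib]
    rw [a1, a2]; ring
  have h2 : (∑ k, q k) ^ 3 + ∑ k, q k * κ k ^ 2
      ≤ ∑ k, ∑ j, ∑ l, q k * q j * q l * G (v j + v k) (v l + v k) := by
    have b1 : (∑ k, q k) ^ 3 = ∑ k, ∑ j, ∑ l, q k * q j * q l := by
      rw [pow_succ, pow_two, Finset.sum_mul_sum, Finset.sum_mul]
      refine Finset.sum_congr rfl fun k _ => ?_
      rw [Finset.sum_mul]
      refine Finset.sum_congr rfl fun j _ => ?_
      rw [Finset.mul_sum]
    have b2 : ∑ k, q k * κ k ^ 2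
        = ∑ k, ∑ j, ∑ l, q k * q j * q l * (F (v j + v k) * F (v l + v k)) := by
      refine Finset.sum_congr rfl fun k _ => ?_
      rw [hκ, pow_two, Finset.sum_mul_sum, Finset.mul_sum]
      refine Finset.sum_congr rfl fun j _ => ?_
      rw [Finset.mul_sum]
      refine Finset.sum_congr rfl fun l _ => ?_
      ring
    rw [b1, b2, ← Finset.sum_add_distrib]
    refine Finset.sum_le_sum fun k _ => ?_
    rw [← Finset.sum_add_distrib]
    refine Finset.sum_le_sum fun j _ => ?_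
    rw [← Finset.sum_add_distrib]
    refine Finset.sum_le_sum fun l _ => ?_
    have := mul_le_mul_of_nonneg_left (hG j k l)
      (mul_nonneg (mul_nonneg (hq k) (hq j)) (hq l))
    linarith
  have h3 : ∑ k, ∑ j, ∑ l, q k * q j * q l * G (v j + v k) (v j + v l)
      = ∑ k, ∑ j, ∑ l, q k * q j * q l * G (v j + v k) (v l + v k) := by
    rw [Finset.sum_comm]
    refine Finset.sum_congr rfl fun k _ => Finset.sum_congr rfl fun j _ =>
      Finset.sum_congr rfl fun l _ => ?_
    rw [add_comm (v k) (v j), add_comm (v k) (v l)]; ring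
  have h4 : ∑ k, ∑ j, (F (v j + v k) * (2 * r k * q j + 2 * r j * q k)
        + ω * ∑ l, q k * q j * q l * (G (v j + v k) (v l + v k) + G (v j + v k) (v j + v l)))
      = 4 * ∑ k, r k * κ k
        + 2 * ω * ∑ k, ∑ j, ∑ l, q k * q j * q l * G (v j + v k) (v l + v k) := by
    simp only [Finset.sum_add_distrib, mul_add (q _ * q _ * q _), ← Finset.mul_sum]
    rw [h3, h1]
    ring
  rw [h4]
  have h5 : 0 ≤ ∑ k, (p k + 2 * (ω * κ k) * r k + (ω * κ k) ^ 2 * q k) :=
    Finset.sum_nonneg fun k _ => hp k _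
  have h6 : ∑ k, (p k + 2 * (ω * κ k) * r k + (ω * κ k) ^ 2 * q k)
      = ∑ k, p k + 2 * ω * ∑ k, r k * κ k + ω ^ 2 * ∑ k, q k * κ k ^ 2 := by
    rw [Finset.mul_sum, Finset.mul_sum, ← Finset.sum_add_distrib, ← Finset.sum_add_distrib]
    refine Finset.sum_congr rfl fun k _ => ?_
    ring
  rw [h6] at h5
  have h7 := mul_le_mul_of_nonneg_left h2 (sq_nonneg ω)
  nlinarith

end Pool.Agent.W779.LT
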