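import Pool.Agent.W779.LT.Point

/-!
The sharp one-dimensional Lieb-Thirring inequality for `C^1` compactly supported families.
-/

set_option autoImplicit false

namespace Pool.Agent.W779.LT

open Polynomial Matrix MeasureTheory

variable {N : ℕ}

/-- The running Gram matrix. -/
noncomputable def gram (u : Fin N → ℝ → ℂ) (R y : ℝ) : Matrix (Fin N) (Fin N) ℂ :=
  fun i j => ∫ t in (-R)..y, u i t * star (u j t)

lemma tpair_zero (H : Matrix (Fin N) (Fin N) ℂ) (n : ℕ) : tpair H (rk (0 : Fin N → ℂ)) n = 0 := by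
  have : rk (0 : Fin N → ℂ) = 0 := by ext i j; simp [rk]
  rw [tpair, this, Matrix.zero_mul, Matrix.trace_zero]

lemma calS_zero (f : ℝ[X]) (ω : ℝ) (H : Matrix (Fin N) (Fin N) ℂ) :
    calS f ω H (0 : Fin N → ℂ) = 0 := by
  simp [calS, tpair_zero]

lemma quad_gram (u : Fin N → ℝ → ℂ) (hu : ∀ n, Continuous (u n)) (R y : ℝ) (v : Fin N → ℂ) :
    star v ⬝ᵥ (gram u R y *ᵥ v)
      = ((∫ t in (-R)..y, ‖∑ n, star (v n) * u n t‖ ^ 2 : ℝ) : ℂ) := by
  have h1 : star v ⬝ᵥ (gram u R y *ᵥ v)
      = ∫ t in (-R)..y, ∑ i, ∑ j, star (v i) * ((u i t * star (u j t)) * v j) := by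
    rw [intervalIntegral.integral_finsetSum]
    · simp only [dotProduct, Matrix.mulVec, Pi.star_apply]
      refine Finset.sum_congr rfl fun i _ => ?_
      rw [intervalIntegral.integral_finsetSum]
      · rw [Finset.mul_sum]
        refine Finset.sum_congr rfl fun j _ => ?_
        rw [intervalIntegral.integral_const_mul, intervalIntegral.integral_mul_const]
        rfl
      · intro j _
        apply Continuous.intervalIntegrable
        exact continuous_const.mul (((hu i).mul (hu j).star).mul continuous_const)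
    · intro i _
      apply Continuous.intervalIntegrable
      exact continuous_finsetSum _ fun j _ =>
        continuous_const.mul (((hu i).mul (hu j).star).mul continuous_const)
  rw [h1, ← intervalIntegral.integral_ofReal]
  refine intervalIntegral.integral_congr fun t _ => ?_
  show _ = ((‖∑ n, star (v n) * u n t‖ ^ 2 : ℝ) : ℂ)
  rw [← Complex.normSq_eq_norm_sq, ← Complex.mul_conj, map_sum, Finset.sum_mul_sum]
  refine Finset.sum_congr rfl fun i _ => Finset.sum_congr rfl fun j _ => ?_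
  simp only [map_mul, Complex.star_def, Complex.conj_conj]
  ring

theorem kinetic_aux (u : Fin N → ℝ → ℂ) (hu : ∀ n, ContDiff ℝ 1 (u n))
    (hc : ∀ n, HasCompactSupport (u n))
    (hle : ∀ v : Fin N → ℂ, ∫ x, ‖∑ n, star (v n) * u n x‖ ^ 2 ≤ ∑ n, ‖v n‖ ^ 2)
    {ω : ℝ} (hω : 0 < ω) (hω2 : ω < Real.pi / 2) :
    ω ^ 2 * ∫ x, (∑ n, ‖u n x‖ ^ 2) ^ 3 ≤ ∑ n, ∫ x, ‖deriv (u n) x‖ ^ 2 := by
  obtain ⟨f, hf⟩ := exists_poly hω hω2
  -- a common support bound
  obtain ⟨R, hR0, hR⟩ : ∃ R : ℝ, 0 < R ∧ ∀ n, ∀ x, R ≤ |x| → x ∉ tsupport (u n) := by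
    have h1 : ∀ n, ∃ r : ℝ, ∀ x ∈ tsupport (u n), |x| ≤ r := by
      intro n
      obtain ⟨r, hr⟩ := (hc n).isCompact.isBounded.subset_closedBall 0
      exact ⟨r, fun x hx => by simpa using hr hx⟩
    choose r hr using h1
    refine ⟨1 + ∑ n, |r n|, by positivity, fun n x hx hx' => ?_⟩
    have h2 := hr n x hx'
    have h3 : |r n| ≤ ∑ n, |r n| :=
      Finset.single_le_sum (f := fun n => |r n|) (fun _ _ => abs_nonneg _) (Finset.mem_univ n)
    have := le_abs_self (r n)
    linarith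
  have hcont : ∀ n, Continuous (u n) := fun n => (hu n).continuous
  have hcont' : ∀ n, Continuous (deriv (u n)) := fun n => (hu n).continuous_deriv le_rfl
  have hz : ∀ n x, R ≤ |x| → u n x = 0 := fun n x hx => image_eq_zero_of_notMem_tsupport (hR n x hx)
  have hz' : ∀ n x, R ≤ |x| → deriv (u n) x = 0 := fun n x hx => by
    by_contra hne
    exact hR n x hx (support_deriv_subset hne)
  set φ : ℝ → ℝ := fun x => ∑ n, ‖deriv (u n) x‖ ^ 2 - ω ^ 2 * (∑ n, ‖u n x‖ ^ 2) ^ 3 with hφ
  have hφc : Continuous φ := by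
    refine Continuous.sub (continuous_finsetSum _ fun n _ => (hcont' n).norm.pow 2) ?_
    exact continuous_const.mul ((continuous_finsetSum _ fun n _ => (hcont n).norm.pow 2).pow 3)
  set H : ℝ → Matrix (Fin N) (Fin N) ℂ := fun y => (ω : ℂ) • (gram u R y - (1 / 2 : ℂ) • 1) with hH
  set U : ℝ → Fin N → ℂ := fun y n => u n y with hU
  have hdU : ∀ x n, HasDerivAt (fun y => U y n) (deriv (u n) x) x := fun x n =>
    ((hu n).differentiable one_ne_zero x).hasDerivAt
  have hdH : ∀ x i j, HasDerivAt (fun y => H y i j) (((ω : ℂ) • rk (U x)) i j) x := by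
    intro x i j
    have hc : Continuous fun t => u i t * star (u j t) := (hcont i).mul (hcont j).star
    have h1 : HasDerivAt (fun y => ∫ t in (-R)..y, u i t * star (u j t))
        (u i x * star (u j x)) x :=
      intervalIntegral.integral_hasDerivAt_right (hc.intervalIntegrable _ _)
        (hc.stronglyMeasurableAtFilter _ _) hc.continuousAt
    have h2 := (h1.sub_const (((1 / 2 : ℂ) • (1 : Matrix (Fin N) (Fin N) ℂ)) i j)).const_mul (ω : ℂ)
    exact h2
  have hHerm : ∀ x, (H x).IsHermitian := by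
    intro x
    ext i j
    have h1 : star (gram u R x j i) = gram u R x i j := by
      simp only [gram, intervalIntegral]
      rw [star_sub, Complex.star_def, ← integral_conj, ← integral_conj]
      simp only [map_mul, Complex.star_def, Complex.conj_conj, mul_comm]
    simp only [hH, Matrix.conjTranspose_apply, Matrix.smul_apply, Matrix.sub_apply, smul_eq_mul,
      star_mul', star_sub, h1, Matrix.one_apply]
    by_cases hij : i = j
    · subst hij; simp
    · have : j ≠ i := fun h => hij h.symm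
      simp [hij, this]
  have hquad : ∀ x, -R ≤ x → ∀ v : Fin N → ℂ,
      |(star v ⬝ᵥ (H x *ᵥ v)).re| ≤ ω / 2 * ∑ i, ‖v i‖ ^ 2 := by
    intro x hx v
    have hcg : Continuous fun t => ‖∑ n, star (v n) * u n t‖ ^ 2 :=
      (continuous_finsetSum _ fun n _ => continuous_const.mul (hcont n)).norm.pow 2
    have hcs : HasCompactSupport fun t => ‖∑ n, star (v n) * u n t‖ ^ 2 := by
      refine HasCompactSupport.intro (K := Set.Icc (-R) R) isCompact_Icc fun t ht => ?_
      have htR : R ≤ |t| := by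
        by_contra hlt
        have := abs_lt.1 (not_le.1 hlt)
        exact ht ⟨this.1.le, this.2.le⟩
      simp [hz _ _ htR]
    have h1 : (star v ⬝ᵥ (H x *ᵥ v))
        = (ω : ℂ) * (star v ⬝ᵥ (gram u R x *ᵥ v) - 1 / 2 * (star v ⬝ᵥ v)) := by
      simp only [hH, Matrix.smul_mulVec, Matrix.sub_mulVec, Matrix.one_mulVec, dotProduct_smul,
        dotProduct_sub, smul_eq_mul]
    have h2 : (star v ⬝ᵥ v) = ((∑ i, ‖v i‖ ^ 2 : ℝ) : ℂ) := by
      simp only [dotProduct, Pi.star_apply, Complex.ofReal_sum]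
      refine Finset.sum_congr rfl fun i _ => ?_
      rw [← Complex.normSq_eq_norm_sq, Complex.star_def, ← Complex.mul_conj, mul_comm]
    have h3 := quad_gram u hcont R x v
    set A := ∫ t in (-R)..x, ‖∑ n, star (v n) * u n t‖ ^ 2 with hA
    have hA0 : 0 ≤ A := intervalIntegral.integral_nonneg hx fun _ _ => by positivity
    have hA1 : A ≤ ∑ i, ‖v i‖ ^ 2 := by
      rw [hA, intervalIntegral.integral_of_le hx]
      exact (setIntegral_le_integral (hcg.integrable_of_hasCompactSupport hcs)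
        (Filter.Eventually.of_forall fun _ => by positivity)).trans (hle v)
    have h4 : (star v ⬝ᵥ (H x *ᵥ v)).re = ω * (A - 1 / 2 * ∑ i, ‖v i‖ ^ 2) := by
      rw [h1, h2, h3]
      have : (ω : ℂ) * ((A : ℂ) - 1 / 2 * ((∑ i, ‖v i‖ ^ 2 : ℝ) : ℂ))
          = ((ω * (A - 1 / 2 * ∑ i, ‖v i‖ ^ 2) : ℝ) : ℂ) := by push_cast; ring
      rw [this, Complex.ofReal_re]
    rw [h4, abs_le]
    constructor <;> nlinarith
  have hder : ∀ x, -R ≤ x → ∃ s, HasDerivAt (fun y => calS f ω (H y) (U y)) s x ∧ s ≤ φ x :=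
    fun x hx => pointwise hω hf (hdU x) (hdH x) (hHerm x) (hquad x hx)
  choose! g' hg' hg'φ using hder
  have hend : ∀ x, R ≤ |x| → calS f ω (H x) (U x) = 0 := by
    intro x hx
    have : U x = 0 := funext fun n => hz n x hx
    rw [this, calS_zero]
  have hmain := intervalIntegral.sub_le_integral_of_hasDeriv_right_of_le (a := -R) (b := R)
    (g := fun y => calS f ω (H y) (U y)) (g' := g') (φ := φ) (by linarith)
    (fun x hx => (hg' x hx.1).continuousAt.continuousWithinAt)
    (fun x hx => (hg' x hx.1.le).hasDerivWithinAt)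
    (hφc.continuousOn.integrableOn_compact isCompact_Icc)
    (fun x hx => hg'φ x hx.1.le)
  rw [hend R (by rw [abs_of_pos hR0]), hend (-R) (by rw [abs_neg, abs_of_pos hR0]), sub_zero] at hmain
  have hsupp : ∫ y in (-R)..R, φ y = ∫ y, φ y := by
    apply intervalIntegral.integral_eq_integral_of_support_subset
    intro x hx
    by_contra hne
    apply hx
    have hxR : R ≤ |x| := by
      by_contra hlt
      have := abs_lt.1 (not_le.1 hlt)
      exact hne ⟨this.1, this.2.le⟩
    simp [hφ, hz _ _ hxR, hz' _ _ hxR]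
  rw [hsupp] at hmain
  have hi1 : ∀ n, Integrable (fun x => ‖deriv (u n) x‖ ^ 2) := by
    intro n
    refine ((hcont' n).norm.pow 2).integrable_of_hasCompactSupport ?_
    refine HasCompactSupport.intro (K := Set.Icc (-R) R) isCompact_Icc fun t ht => ?_
    have htR : R ≤ |t| := by
      by_contra hlt
      have := abs_lt.1 (not_le.1 hlt)
      exact ht ⟨this.1.le, this.2.le⟩
    simp [hz' _ _ htR]
  have hi2 : Integrable (fun x => (∑ n, ‖u n x‖ ^ 2) ^ 3) := by
    refine ((continuous_finsetSum _ fun n _ =>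
      (hcont n).norm.pow 2).pow 3).integrable_of_hasCompactSupport ?_
    refine HasCompactSupport.intro (K := Set.Icc (-R) R) isCompact_Icc fun t ht => ?_
    have htR : R ≤ |t| := by
      by_contra hlt
      have := abs_lt.1 (not_le.1 hlt)
      exact ht ⟨this.1.le, this.2.le⟩
    simp [hz _ _ htR]
  have : ∫ y, φ y
      = (∑ n, ∫ x, ‖deriv (u n) x‖ ^ 2) - ω ^ 2 * ∫ x, (∑ n, ‖u n x‖ ^ 2) ^ 3 := by
    rw [hφ, integral_sub (integrable_finsetSum _ fun n _ => hi1 n) (hi2.const_mul _),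
      integral_finsetSum _ fun n _ => hi1 n, integral_const_mul]
  rw [this] at hmain
  linarith

/-- The sharp inequality for sub-orthonormal families. -/
theorem kinetic (u : Fin N → ℝ → ℂ) (hu : ∀ n, ContDiff ℝ 1 (u n))
    (hc : ∀ n, HasCompactSupport (u n))
    (hle : ∀ v : Fin N → ℂ, ∫ x, ‖∑ n, star (v n) * u n x‖ ^ 2 ≤ ∑ n, ‖v n‖ ^ 2) :
    Real.pi ^ 2 / 4 * ∫ x, (∑ n, ‖u n x‖ ^ 2) ^ 3 ≤ ∑ n, ∫ x, ‖deriv (u n) x‖ ^ 2 := by
  set I := ∫ x, (∑ n, ‖u n x‖ ^ 2) ^ 3 with hI
  set T := ∑ n, ∫ x, ‖deriv (u n) x‖ ^ 2 with hT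
  have h1 : ∀ ω ∈ Set.Ioo 0 (Real.pi / 2), ω ^ 2 * I ≤ T := fun ω hω =>
    kinetic_aux u hu hc hle hω.1 hω.2
  have h2 : Filter.Tendsto (fun ω : ℝ => ω ^ 2 * I) (nhdsWithin (Real.pi / 2) (Set.Iio (Real.pi / 2)))
      (nhds ((Real.pi / 2) ^ 2 * I)) := by
    have : Continuous fun ω : ℝ => ω ^ 2 * I := by fun_prop
    exact this.continuousAt.tendsto.mono_left nhdsWithin_le_nhds
  have h3 : (Real.pi / 2) ^ 2 * I ≤ T := by
    refine le_of_tendsto h2 ?_
    filter_upwards [Ioo_mem_nhdsLT (by positivity : (0 : ℝ) < Real.pi / 2)] with ω hω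
    exact h1 ω hω
  calc Real.pi ^ 2 / 4 * I = (Real.pi / 2) ^ 2 * I := by ring
    _ ≤ T := h3

end Pool.Agent.W779.LT
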