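import Pool.Agent.W779.LT.Core

/-!
The calibration function and its pointwise derivative bound.
-/

set_option autoImplicit false

namespace Pool.Agent.W779.LT

open Polynomial Matrix

variable {ι : Type*} [Fintype ι] [DecidableEq ι]

/-- The calibration. -/
noncomputable def calS (f : ℝ[X]) (ω : ℝ) (H : Matrix ι ι ℂ) (U : ι → ℂ) : ℝ :=
  -(ω / 2) * ∑ n ∈ Finset.range (f.natDegree + 1), f.coeff n * (tpair H (rk U) n).re

omit [DecidableEq ι] in
lemma rk_conj (V : Matrix ι ι ℂ) (U : ι → ℂ) : rk (Vᴴ *ᵥ U) = Vᴴ * rk U * V := by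
  ext i j
  simp only [rk, Matrix.mul_apply, Matrix.mulVec, dotProduct, Matrix.conjTranspose_apply,
    star_sum, star_mul', star_star]
  rw [Finset.sum_mul_sum, Finset.sum_comm]
  refine Finset.sum_congr rfl fun a _ => ?_
  rw [Finset.sum_mul]
  refine Finset.sum_congr rfl fun b _ => ?_
  ring

lemma sum_norm_sq_unitary (V : Matrix ι ι ℂ) (hV : V * Vᴴ = 1) (U : ι → ℂ) :
    ∑ i, ‖(Vᴴ *ᵥ U) i‖ ^ 2 = ∑ i, ‖U i‖ ^ 2 := by
  have key : ∀ X : ι → ℂ, ((∑ i, ‖X i‖ ^ 2 : ℝ) : ℂ) = (rk X).trace := by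
    intro X
    simp only [rk, Matrix.trace, Matrix.diag, Complex.ofReal_sum]
    refine Finset.sum_congr rfl fun i _ => ?_
    rw [← Complex.normSq_eq_norm_sq, Complex.star_def, Complex.mul_conj]
  have : ((∑ i, ‖(Vᴴ *ᵥ U) i‖ ^ 2 : ℝ) : ℂ) = ((∑ i, ‖U i‖ ^ 2 : ℝ) : ℂ) := by
    rw [key, key, rk_conj, Matrix.trace_mul_comm, ← Matrix.mul_assoc, hV, Matrix.one_mul]
  exact_mod_cast this

omit [DecidableEq ι] in
lemma hasDerivAt_conj {A : ℝ → Matrix ι ι ℂ} {A' : Matrix ι ι ℂ} {x : ℝ}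
    (hA : ∀ i j, HasDerivAt (fun y => A y i j) (A' i j) x) (W V : Matrix ι ι ℂ) (i j : ι) :
    HasDerivAt (fun y => (W * A y * V) i j) ((W * A' * V) i j) x := by
  have h0 : ∀ B : Matrix ι ι ℂ, ∀ i j, HasDerivAt (fun _ : ℝ => B i j) ((0 : Matrix ι ι ℂ) i j) x :=
    fun B i j => by simpa using hasDerivAt_const x (B i j)
  have h1 := fun i j => hasDerivAt_mul_entry (A := fun _ => W) (h0 W) hA i j
  have h2 := hasDerivAt_mul_entry (B := fun _ => V) h1 (h0 V) i j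
  simpa using h2

theorem pointwise {f : ℝ[X]} {ω : ℝ} (hω : 0 < ω)
    (hf : ∀ x y : ℝ, |x| ≤ ω → |y| ≤ ω → |x - y| ≤ ω → 1 + f.eval x * f.eval y ≤ dd f x y)
    {U : ℝ → ι → ℂ} {H : ℝ → Matrix ι ι ℂ} {x : ℝ} {P : ι → ℂ}
    (hU : ∀ i, HasDerivAt (fun y => U y i) (P i) x)
    (hH : ∀ i j, HasDerivAt (fun y => H y i j) (((ω : ℂ) • rk (U x)) i j) x)
    (hHerm : (H x).IsHermitian)
    (hspec : ∀ v : ι → ℂ, |(star v ⬝ᵥ (H x *ᵥ v)).re| ≤ ω / 2 * ∑ i, ‖v i‖ ^ 2) :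
    ∃ s, HasDerivAt (fun y => calS f ω (H y) (U y)) s x ∧
      s ≤ ∑ i, ‖P i‖ ^ 2 - ω ^ 2 * (∑ i, ‖U x i‖ ^ 2) ^ 3 := by
  set V : Matrix ι ι ℂ := (hHerm.eigenvectorUnitary : Matrix ι ι ℂ) with hV
  have hVW : V * Vᴴ = 1 := Unitary.coe_mul_star_self hHerm.eigenvectorUnitary
  have hdiag : Vᴴ * H x * V = diagonal (fun i => ((hHerm.eigenvalues i : ℝ) : ℂ)) := by
    have := hHerm.conjStarAlgAut_star_eigenvectorUnitary
    rw [Unitary.conjStarAlgAut_star_apply] at this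
    exact this
  set v : ι → ℝ := hHerm.eigenvalues with hv
  -- eigenvalue bounds
  have hvb : ∀ i, |v i| ≤ ω / 2 := by
    intro i
    have h1 := hHerm.eigenvalues_eq i
    have h2 := hspec (⇑(hHerm.eigenvectorBasis i))
    have h3 : ∑ j, ‖(hHerm.eigenvectorBasis i) j‖ ^ 2 = 1 := by
      have := hHerm.eigenvectorBasis.orthonormal.1 i
      rw [EuclideanSpace.norm_eq] at this
      have h4 := congrArg (· ^ 2) this
      simp only [one_pow] at h4
      rwa [Real.sq_sqrt (Finset.sum_nonneg fun _ _ => by positivity)] at h4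
    rw [h3, mul_one] at h2
    rw [hv, h1]
    exact h2
  -- rotated curves
  set U₁ : ℝ → ι → ℂ := fun y => Vᴴ *ᵥ U y with hU₁
  set P₁ : ι → ℂ := Vᴴ *ᵥ P with hP₁
  set H₁ : ℝ → Matrix ι ι ℂ := fun y => Vᴴ * H y * V with hH₁
  have hrot : ∀ y, calS f ω (H y) (U y) = calS f ω (H₁ y) (U₁ y) := by
    intro y
    simp only [calS, hU₁, hH₁]
    congr 1
    refine Finset.sum_congr rfl fun n _ => ?_
    rw [rk_conj, tpair_conj _ _ _ _ hVW]
  have hdU₁ : ∀ i, HasDerivAt (fun y => U₁ y i) (P₁ i) x := by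
    intro i
    simp only [hU₁, hP₁, Matrix.mulVec, dotProduct]
    exact HasDerivAt.fun_sum fun j _ => (hU j).const_mul _
  have hdQ₁ : ∀ i j, HasDerivAt (fun y => rk (U₁ y) i j) (rk' (U₁ x) P₁ i j) x := by
    intro i j
    simp only [rk, rk']
    exact (hdU₁ i).mul (hdU₁ j).star
  have hdH₁ : ∀ i j, HasDerivAt (fun y => H₁ y i j) (((ω : ℂ) • rk (U₁ x)) i j) x := by
    intro i j
    have := hasDerivAt_conj hH Vᴴ V i j
    rw [Matrix.mul_smul, Matrix.smul_mul, ← rk_conj] at this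
    exact this
  have hder : ∀ n, HasDerivAt (fun y => (tpair (H₁ y) (rk (U₁ y)) n).re)
      (∑ k, ∑ j, ((v j + v k) ^ n * (2 * (P₁ k * star (U₁ x k)).re * ‖U₁ x j‖ ^ 2
        + 2 * (P₁ j * star (U₁ x j)).re * ‖U₁ x k‖ ^ 2)
        + ω * ∑ l, ‖U₁ x k‖ ^ 2 * ‖U₁ x j‖ ^ 2 * ‖U₁ x l‖ ^ 2 *
          (dpow n (v j + v k) (v l + v k) + dpow n (v j + v k) (v j + v l)))) x := by
    intro n
    have h1 := hasDerivAt_tpair hdH₁ hdQ₁ n
    have h2 : H₁ x = diagonal (fun i => (v i : ℂ)) := hdiag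
    rw [h2, trace_der_diag] at h1
    exact (Complex.reCLM.hasFDerivAt.comp_hasDerivAt x h1)
  have hderS : HasDerivAt (fun y => calS f ω (H y) (U y))
      (-(ω / 2) * ∑ n ∈ Finset.range (f.natDegree + 1), f.coeff n *
      (∑ k, ∑ j, ((v j + v k) ^ n * (2 * (P₁ k * star (U₁ x k)).re * ‖U₁ x j‖ ^ 2
        + 2 * (P₁ j * star (U₁ x j)).re * ‖U₁ x k‖ ^ 2)
        + ω * ∑ l, ‖U₁ x k‖ ^ 2 * ‖U₁ x j‖ ^ 2 * ‖U₁ x l‖ ^ 2 *
          (dpow n (v j + v k) (v l + v k) + dpow n (v j + v k) (v j + v l))))) x := by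
    have : (fun y => calS f ω (H y) (U y)) = fun y => calS f ω (H₁ y) (U₁ y) := funext hrot
    rw [this]
    simp only [calS]
    exact (HasDerivAt.fun_sum fun n _ => (hder n).const_mul _).const_mul _
  refine ⟨_, hderS, ?_⟩
  have hsum : ∑ n ∈ Finset.range (f.natDegree + 1), f.coeff n *
      (∑ k, ∑ j, ((v j + v k) ^ n * (2 * (P₁ k * star (U₁ x k)).re * ‖U₁ x j‖ ^ 2
        + 2 * (P₁ j * star (U₁ x j)).re * ‖U₁ x k‖ ^ 2)
        + ω * ∑ l, ‖U₁ x k‖ ^ 2 * ‖U₁ x j‖ ^ 2 * ‖U₁ x l‖ ^ 2 *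
          (dpow n (v j + v k) (v l + v k) + dpow n (v j + v k) (v j + v l))))
      = ∑ k, ∑ j, (f.eval (v j + v k) * (2 * (P₁ k * star (U₁ x k)).re * ‖U₁ x j‖ ^ 2
        + 2 * (P₁ j * star (U₁ x j)).re * ‖U₁ x k‖ ^ 2)
        + ω * ∑ l, ‖U₁ x k‖ ^ 2 * ‖U₁ x j‖ ^ 2 * ‖U₁ x l‖ ^ 2 *
          (dd f (v j + v k) (v l + v k) + dd f (v j + v k) (v j + v l))) := by
    simp only [Finset.mul_sum]
    rw [Finset.sum_comm]
    refine Finset.sum_congr rfl fun k _ => ?_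
    rw [Finset.sum_comm]
    refine Finset.sum_congr rfl fun j _ => ?_
    simp only [mul_add, Finset.sum_add_distrib]
    have e1 : ∀ a b : ℝ, ∑ n ∈ Finset.range (f.natDegree + 1),
        f.coeff n * ((v j + v k) ^ n * a) = f.eval (v j + v k) * a := by
      intro a b
      rw [eval_eq_sum_range, Finset.sum_mul]
      exact Finset.sum_congr rfl fun n _ => by ring
    rw [e1 _ 0, e1 _ 0]
    congr 1
    simp only [Finset.mul_sum]
    rw [Finset.sum_comm, Finset.sum_comm (s := Finset.range _) (t := Finset.univ)]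
    rw [← Finset.sum_add_distrib, ← Finset.sum_add_distrib]
    refine Finset.sum_congr rfl fun l _ => ?_
    have e2 : ∀ a y z : ℝ, ∑ n ∈ Finset.range (f.natDegree + 1),
        f.coeff n * (ω * (a * dpow n y z)) = ω * (a * dd f y z) := by
      intro a y z
      rw [dd, Finset.mul_sum, Finset.mul_sum]
      exact Finset.sum_congr rfl fun n _ => by ring
    rw [e2, e2]
  rw [hsum, ← sum_norm_sq_unitary V hVW P, ← sum_norm_sq_unitary V hVW (U x)]
  refine real_ineq v (fun k => ‖U₁ x k‖ ^ 2) (fun k => (P₁ k * star (U₁ x k)).re)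
    (fun k => ‖P₁ k‖ ^ 2) (fun t => f.eval t) (dd f) (fun k => by positivity) ?_ ?_
  · intro k t
    have h1 : 0 ≤ ‖P₁ k + (t : ℂ) * U₁ x k‖ ^ 2 := by positivity
    rw [← Complex.normSq_eq_norm_sq, Complex.normSq_add, Complex.normSq_eq_norm_sq,
      Complex.normSq_eq_norm_sq, norm_mul, Complex.norm_real, map_mul, Complex.conj_ofReal,
      mul_pow, Real.norm_eq_abs, sq_abs] at h1
    have h2 : (P₁ k * ((t : ℂ) * (starRingEnd ℂ) (U₁ x k))).re
        = t * (P₁ k * star (U₁ x k)).re := by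
      rw [mul_left_comm, Complex.re_ofReal_mul, Complex.star_def]
    rw [h2] at h1
    linarith
  · intro j k l
    have hj := abs_le.1 (hvb j)
    have hk := abs_le.1 (hvb k)
    have hl := abs_le.1 (hvb l)
    refine hf _ _ (abs_le.2 ⟨by linarith [hj.1, hk.1], by linarith [hj.2, hk.2]⟩)
      (abs_le.2 ⟨by linarith [hl.1, hk.1], by linarith [hl.2, hk.2]⟩)
      (abs_le.2 ⟨by linarith [hj.1, hl.2], by linarith [hj.2, hl.1]⟩)

end Pool.Agent.W779.LT
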