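import Mathlib

/-!
Scalar part of the one-dimensional Lieb-Thirring argument: divided differences of polynomials and a
polynomial `f` with `1 + f x * f y ≤ f[x, y]` on `[-ω, ω]` (a perturbation of the tangent).
-/

set_option autoImplicit false

namespace Pool.Agent.W779.LT

open Polynomial

/-- Divided difference of the `n`-th power. -/
def dpow : ℕ → ℝ → ℝ → ℝ
  | 0, _, _ => 0
  | n + 1, x, y => x * dpow n x y + y ^ n

lemma sub_mul_dpow (n : ℕ) (x y : ℝ) : (x - y) * dpow n x y = x ^ n - y ^ n := by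
  induction n with
  | zero => simp [dpow]
  | succ n ih =>
    have : (x - y) * dpow (n + 1) x y = x * ((x - y) * dpow n x y) + (x - y) * y ^ n := by
      simp only [dpow]; ring
    rw [this, ih]; ring

lemma dpow_self (n : ℕ) (x : ℝ) : dpow n x x = n * x ^ (n - 1) := by
  induction n with
  | zero => simp [dpow]
  | succ n ih =>
    simp only [dpow, ih]
    rcases n with _ | n
    · simp
    · simp only [Nat.add_sub_cancel, pow_succ]
      push_cast
      ring

/-- Divided difference of a polynomial. -/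
noncomputable def dd (f : ℝ[X]) (x y : ℝ) : ℝ :=
  ∑ n ∈ Finset.range (f.natDegree + 1), f.coeff n * dpow n x y

lemma sub_mul_dd (f : ℝ[X]) (x y : ℝ) : (x - y) * dd f x y = f.eval x - f.eval y := by
  rw [dd, Finset.mul_sum, eval_eq_sum_range, eval_eq_sum_range, ← Finset.sum_sub_distrib]
  refine Finset.sum_congr rfl fun n _ => ?_
  rw [mul_left_comm, sub_mul_dpow]; ring

lemma dd_self (f : ℝ[X]) (x : ℝ) : dd f x x = (derivative f).eval x := by
  rw [dd, derivative_eval, Polynomial.sum_over_range' _ _ (f.natDegree + 1) (Nat.lt_succ_self _)]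
  · refine Finset.sum_congr rfl fun n _ => ?_
    rw [dpow_self]; ring
  · intro n; simp

lemma exists_antideriv (g : ℝ[X]) : ∃ f : ℝ[X], derivative f = g ∧ f.eval 0 = 0 := by
  induction g using Polynomial.induction_on' with
  | add p q hp hq =>
    obtain ⟨f₁, h₁, h₁'⟩ := hp
    obtain ⟨f₂, h₂, h₂'⟩ := hq
    exact ⟨f₁ + f₂, by simp [h₁, h₂], by simp [h₁', h₂']⟩
  | monomial n a =>
    refine ⟨monomial (n + 1) (a / (n + 1)), ?_, ?_⟩
    · rw [derivative_monomial]
      have : ((n : ℝ) + 1) ≠ 0 := by positivity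
      simp only [Nat.cast_add, Nat.cast_one, Nat.add_sub_cancel]
      rw [div_mul_cancel₀ _ this]
    · simp

/-- The tangent has a divided difference with a definite gain. -/
lemma tan_dd {ω l x y : ℝ} (hω : 0 < ω) (hl : 1 < l) (hlω : l * ω < Real.pi / 2)
    (hx : |x| ≤ ω) (hy : |y| ≤ ω) (hxy : |x - y| ≤ ω) (hne : x ≠ y) :
    1 + Real.tan (l * x) * Real.tan (l * y) + (l - 1) * Real.cos (l * ω)
      ≤ (Real.tan (l * x) - Real.tan (l * y)) / (x - y) := by
  have hl0 : 0 < l := by linarith
  have hb : ∀ z : ℝ, |z| ≤ ω → |l * z| ≤ l * ω := fun z hz => by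
    rw [abs_mul, abs_of_pos hl0]; exact mul_le_mul_of_nonneg_left hz hl0.le
  have hcos : ∀ z : ℝ, |z| ≤ ω → 0 < Real.cos (l * z) := fun z hz => by
    have := abs_le.1 (hb z hz)
    exact Real.cos_pos_of_mem_Ioo ⟨by linarith [this.1], by linarith [this.2]⟩
  have hcx := hcos x hx
  have hcy := hcos y hy
  have hcd := hcos (x - y) hxy
  have hcd' : Real.cos (l * ω) ≤ Real.cos (l * (x - y)) := by
    rw [← Real.cos_abs (l * (x - y))]
    exact Real.cos_le_cos_of_nonneg_of_le_pi (abs_nonneg _)
      (by linarith [Real.pi_pos]) (hb _ hxy)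
  set a := l * x with ha
  set b := l * y with hb'
  have hab : l * (x - y) = a - b := by rw [ha, hb']; ring
  rw [hab] at hcd hcd'
  have hsub : x - y ≠ 0 := sub_ne_zero.2 hne
  have h1 : (Real.tan a - Real.tan b) / (x - y)
      = (Real.sin (a - b) / (x - y)) / (Real.cos a * Real.cos b) := by
    rw [Real.tan_eq_sin_div_cos, Real.tan_eq_sin_div_cos, Real.sin_sub]
    field_simp
  have h2 : 1 + Real.tan a * Real.tan b = Real.cos (a - b) / (Real.cos a * Real.cos b) := by
    rw [Real.tan_eq_sin_div_cos, Real.tan_eq_sin_div_cos, Real.cos_sub]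
    field_simp
  have h3 : l * Real.cos (a - b) ≤ Real.sin (a - b) / (x - y) := by
    have hkey : ∀ t : ℝ, 0 < t → t < Real.pi / 2 → t * Real.cos t ≤ Real.sin t := by
      intro t ht ht2
      have hct := Real.cos_pos_of_mem_Ioo ⟨by linarith, ht2⟩
      have := Real.lt_tan ht ht2
      rw [Real.tan_eq_sin_div_cos, lt_div_iff₀ hct] at this
      exact this.le
    have habs := abs_le.1 (hb _ hxy)
    rw [hab] at habs
    rcases lt_or_gt_of_ne hne with h | h
    · have hneg : x - y < 0 := by linarith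
      rw [le_div_iff_of_neg hneg]
      have := hkey (-(a - b)) (by rw [← hab]; nlinarith) (by linarith [habs.1])
      rw [Real.cos_neg, Real.sin_neg] at this
      have e : l * Real.cos (a - b) * (x - y) = (a - b) * Real.cos (a - b) := by
        rw [← hab]; ring
      rw [e]; linarith
    · have hpos : 0 < x - y := by linarith
      rw [le_div_iff₀ hpos]
      have := hkey (a - b) (by rw [← hab]; positivity) (by linarith [habs.2])
      have e : l * Real.cos (a - b) * (x - y) = (a - b) * Real.cos (a - b) := by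
        rw [← hab]; ring
      rw [e]; exact this
  rw [h1, h2]
  have hcc : 0 < Real.cos a * Real.cos b := mul_pos hcx hcy
  have hcc1 : Real.cos a * Real.cos b ≤ 1 := by
    have := Real.cos_le_one a
    have := Real.cos_le_one b
    nlinarith
  have h4 : (l - 1) * Real.cos (l * ω) ≤ (l - 1) * Real.cos (a - b) / (Real.cos a * Real.cos b) := by
    rw [le_div_iff₀ hcc]
    have h5 : 0 ≤ (l - 1) * Real.cos (a - b) := by
      apply mul_nonneg (by linarith) hcd.le
    have h6 : (l - 1) * Real.cos (l * ω) ≤ (l - 1) * Real.cos (a - b) :=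
      mul_le_mul_of_nonneg_left hcd' (by linarith)
    have h7 : 0 ≤ (l - 1) * Real.cos (l * ω) := by
      have h8 : 0 < Real.cos (l * ω) :=
        Real.cos_pos_of_mem_Ioo ⟨by nlinarith [Real.pi_pos], hlω⟩
      exact mul_nonneg (by linarith) h8.le
    nlinarith
  calc Real.cos (a - b) / (Real.cos a * Real.cos b) + (l - 1) * Real.cos (l * ω)
      ≤ Real.cos (a - b) / (Real.cos a * Real.cos b)
        + (l - 1) * Real.cos (a - b) / (Real.cos a * Real.cos b) := by linarith
    _ = l * Real.cos (a - b) / (Real.cos a * Real.cos b) := by ring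
    _ ≤ _ := by gcongr

/-- A polynomial with `1 + f x * f y ≤ f[x, y]` whenever `|x|, |y|, |x - y| ≤ ω < π / 2`. -/
theorem exists_poly {ω : ℝ} (hω : 0 < ω) (hω2 : ω < Real.pi / 2) :
    ∃ f : ℝ[X], ∀ x y : ℝ, |x| ≤ ω → |y| ≤ ω → |x - y| ≤ ω →
      1 + f.eval x * f.eval y ≤ dd f x y := by
  obtain ⟨l, hl, hlω⟩ : ∃ l : ℝ, 1 < l ∧ l * ω < Real.pi / 2 := by
    have h1 : 1 < Real.pi / 2 / ω := by rw [lt_div_iff₀ hω]; linarith
    obtain ⟨l, hl1, hl2⟩ := exists_between h1
    exact ⟨l, hl1, by rwa [lt_div_iff₀ hω] at hl2⟩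
  have hl0 : 0 < l := by linarith
  have hb : ∀ z : ℝ, |z| ≤ ω → |l * z| ≤ l * ω := fun z hz => by
    rw [abs_mul, abs_of_pos hl0]; exact mul_le_mul_of_nonneg_left hz hl0.le
  have hcos : ∀ z : ℝ, |z| ≤ ω → 0 < Real.cos (l * z) := fun z hz => by
    have := abs_le.1 (hb z hz)
    exact Real.cos_pos_of_mem_Ioo ⟨by linarith [this.1], by linarith [this.2]⟩
  set T := Real.tan (l * ω) with hT
  have hT0 : 0 ≤ T := (Real.tan_pos_of_pos_of_lt_pi_div_two (by positivity) hlω).le
  have htan : ∀ z : ℝ, |z| ≤ ω → |Real.tan (l * z)| ≤ T := fun z hz => by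
    have h := abs_le.1 (hb z hz)
    have hw : l * ω ∈ Set.Ioo (-(Real.pi / 2)) (Real.pi / 2) :=
      ⟨by nlinarith [Real.pi_pos], hlω⟩
    have hw' : -(l * ω) ∈ Set.Ioo (-(Real.pi / 2)) (Real.pi / 2) :=
      ⟨by linarith, by nlinarith [Real.pi_pos]⟩
    have hz' : l * z ∈ Set.Ioo (-(Real.pi / 2)) (Real.pi / 2) :=
      ⟨by linarith [h.1], by linarith [h.2]⟩
    rw [abs_le]
    constructor
    · have := (Real.strictMonoOn_tan.monotoneOn) hw' hz' h.1
      rwa [Real.tan_neg] at this
    · exact (Real.strictMonoOn_tan.monotoneOn) hz' hw h.2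
  set η := (l - 1) * Real.cos (l * ω) with hη
  have hη0 : 0 < η := mul_pos (by linarith) (hcos ω (by rw [abs_of_pos hω]))
  set B := 1 + ω * (2 * T + ω) with hB
  have hB0 : 0 < B := by positivity
  set δ := min 1 (η / B) with hδ
  have hδ0 : 0 < δ := lt_min one_pos (div_pos hη0 hB0)
  have hδ1 : δ ≤ 1 := min_le_left _ _
  have hδB : δ * B ≤ η := by
    have := min_le_right 1 (η / B)
    rwa [← hδ, le_div_iff₀ hB0] at this
  have hcont : ContinuousOn (fun x : ℝ => l * (1 + Real.tan (l * x) ^ 2)) (Set.Icc (-ω) ω) := by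
    intro x hx
    have hc := hcos x (abs_le.2 hx)
    have h1 : ContinuousAt (fun x : ℝ => Real.tan (l * x)) x := by
      have := (Real.continuousAt_tan.2 hc.ne')
      exact ContinuousAt.comp (f := fun x : ℝ => l * x) (g := Real.tan) this
        (continuous_const.mul continuous_id).continuousAt
    exact (continuousAt_const.mul (continuousAt_const.add (h1.pow 2))).continuousWithinAt
  obtain ⟨g, hg⟩ := exists_polynomial_near_of_continuousOn (-ω) ω _ hcont δ hδ0
  obtain ⟨f, hf, hf0⟩ := exists_antideriv g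
  refine ⟨f, ?_⟩
  set h : ℝ → ℝ := fun x => f.eval x - Real.tan (l * x) with hh
  have hderiv : ∀ x ∈ Set.Icc (-ω) ω,
      HasDerivWithinAt h (g.eval x - l * (1 + Real.tan (l * x) ^ 2)) (Set.Icc (-ω) ω) x := by
    intro x hx
    have hc := hcos x (abs_le.2 hx)
    have h1 : HasDerivAt (fun x : ℝ => Real.tan (l * x)) (l * (1 + Real.tan (l * x) ^ 2)) x := by
      have h2 := (Real.hasDerivAt_tan hc.ne').comp x ((hasDerivAt_id x).const_mul l)
      refine h2.congr_deriv ?_
      simp only [mul_one]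
      rw [Real.tan_eq_sin_div_cos]
      have := Real.sin_sq_add_cos_sq (l * x)
      field_simp
      linarith
    have h3 := f.hasDerivAt x
    rw [hf] at h3
    exact (h3.sub h1).hasDerivWithinAt
  have hlip : ∀ x ∈ Set.Icc (-ω) ω, ∀ y ∈ Set.Icc (-ω) ω, |h x - h y| ≤ δ * |x - y| := by
    intro x hx y hy
    have := (convex_Icc (-ω) ω).norm_image_sub_le_of_norm_hasDerivWithin_le (f := h) hderiv
      (C := δ) (fun z hz => by rw [Real.norm_eq_abs]; exact (hg z hz).le) hy hx
    simpa [Real.norm_eq_abs] using this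
  have hh0 : h 0 = 0 := by simp [hh, hf0]
  have hhb : ∀ x : ℝ, |x| ≤ ω → |h x| ≤ δ * ω := by
    intro x hx
    have := hlip x (abs_le.1 hx) 0 ⟨by linarith, hω.le⟩
    rw [hh0, sub_zero, sub_zero] at this
    exact this.trans (mul_le_mul_of_nonneg_left hx hδ0.le)
  intro x y hx hy hxy
  -- upper bound for the product
  have hprod : f.eval x * f.eval y
      ≤ Real.tan (l * x) * Real.tan (l * y) + 2 * T * (δ * ω) + (δ * ω) ^ 2 := by
    have e1 : f.eval x = Real.tan (l * x) + h x := by simp [hh]
    have e2 : f.eval y = Real.tan (l * y) + h y := by simp [hh]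
    rw [e1, e2]
    have b1 := htan x hx
    have b2 := htan y hy
    have b3 := hhb x hx
    have b4 := hhb y hy
    have c1 : Real.tan (l * x) * h y ≤ T * (δ * ω) :=
      (le_abs_self _).trans (by rw [abs_mul]; exact mul_le_mul b1 b4 (abs_nonneg _) hT0)
    have c2 : h x * Real.tan (l * y) ≤ (δ * ω) * T :=
      (le_abs_self _).trans (by rw [abs_mul]; exact mul_le_mul b3 b2 (abs_nonneg _) (by positivity))
    have c3 : h x * h y ≤ (δ * ω) * (δ * ω) :=
      (le_abs_self _).trans (by rw [abs_mul]; exact mul_le_mul b3 b4 (abs_nonneg _) (by positivity))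
    nlinarith
  have hbudget : δ + 2 * T * (δ * ω) + (δ * ω) ^ 2 ≤ η := by
    refine le_trans ?_ hδB
    rw [hB]
    have : δ * ω * (δ * ω) ≤ δ * ω * ω := by
      apply mul_le_mul_of_nonneg_left _ (by positivity)
      nlinarith
    nlinarith
  have hmain : 1 + Real.tan (l * x) * Real.tan (l * y) + η - δ ≤ dd f x y := by
    by_cases hne : x = y
    · subst hne
      rw [dd_self, hf]
      have := (abs_lt.1 (hg x (abs_le.1 hx))).1
      have hc1 : Real.cos (l * ω) ≤ 1 := Real.cos_le_one _
      have hc2 : η ≤ (l - 1) * (1 + Real.tan (l * x) ^ 2) := by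
        rw [hη]
        apply mul_le_mul_of_nonneg_left _ (by linarith)
        nlinarith [sq_nonneg (Real.tan (l * x))]
      nlinarith
    · have h1 := tan_dd hω hl hlω hx hy hxy hne
      have h2 := sub_mul_dd f x y
      have hsub : x - y ≠ 0 := sub_ne_zero.2 hne
      have h3 : dd f x y = (Real.tan (l * x) - Real.tan (l * y)) / (x - y)
          + (h x - h y) / (x - y) := by
        rw [← add_div, eq_div_iff hsub, mul_comm, h2]
        simp only [hh]
        ring
      have h4 : |(h x - h y) / (x - y)| ≤ δ := by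
        rw [abs_div, div_le_iff₀ (abs_pos.2 hsub)]
        exact hlip x (abs_le.1 hx) y (abs_le.1 hy)
      have h5 := (abs_le.1 h4).1
      rw [h3]
      linarith
  linarith

end Pool.Agent.W779.LT
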