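import Mathlib

/-!
Near-optimal functions for the one-dimensional Gagliardo-Nirenberg inequality:
smooth cut-offs of `(cosh x)^(-1/2)`.
-/

set_option autoImplicit false

namespace Pool.Agent.W779.LT

open MeasureTheory Filter Topology

lemma inv_cosh_le (x : ℝ) : (Real.cosh x)⁻¹ ≤ 4 * (1 + x ^ 2)⁻¹ := by
  have h1 : 1 + |x| + |x| ^ 2 / 2 ≤ Real.exp |x| := Real.quadratic_le_exp_of_nonneg (abs_nonneg x)
  have h2 : Real.exp |x| ≤ 2 * Real.cosh x := by
    rw [← Real.cosh_abs x, Real.cosh_eq]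
    have := Real.exp_pos (-|x|)
    linarith
  have h3 : (1 + x ^ 2) / 4 ≤ Real.cosh x := by
    have := abs_nonneg x
    rw [sq_abs] at h1
    nlinarith [sq_nonneg x]
  have h4 : (0 : ℝ) < (1 + x ^ 2) / 4 := by positivity
  calc (Real.cosh x)⁻¹ ≤ ((1 + x ^ 2) / 4)⁻¹ := inv_anti₀ h4 h3
    _ = 4 * (1 + x ^ 2)⁻¹ := by rw [inv_div]; ring

lemma continuous_inv_cosh : Continuous fun x : ℝ => (Real.cosh x)⁻¹ :=
  Real.continuous_cosh.inv₀ fun x => (Real.cosh_pos x).ne'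

lemma integrable_inv_cosh : Integrable fun x : ℝ => (Real.cosh x)⁻¹ := by
  refine (integrable_inv_one_add_sq.const_mul 4).mono' continuous_inv_cosh.aestronglyMeasurable ?_
  refine Eventually.of_forall fun x => ?_
  rw [Real.norm_of_nonneg (inv_nonneg.2 (Real.cosh_pos x).le)]
  exact inv_cosh_le x

lemma inv_cosh_le_one (x : ℝ) : (Real.cosh x)⁻¹ ≤ 1 := inv_le_one_of_one_le₀ (Real.one_le_cosh x)

lemma integrable_inv_cosh_cube : Integrable fun x : ℝ => (Real.cosh x)⁻¹ ^ 3 := by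
  refine integrable_inv_cosh.mono' (continuous_inv_cosh.pow 3).aestronglyMeasurable ?_
  refine Eventually.of_forall fun x => ?_
  have h0 : 0 ≤ (Real.cosh x)⁻¹ := inv_nonneg.2 (Real.cosh_pos x).le
  rw [Real.norm_of_nonneg (by positivity)]
  have h1 := inv_cosh_le_one x
  calc (Real.cosh x)⁻¹ ^ 3 ≤ (Real.cosh x)⁻¹ ^ 1 := pow_le_pow_of_le_one h0 h1 (by norm_num)
    _ = _ := pow_one _

lemma tendsto_sinh_atTop : Tendsto Real.sinh atTop atTop := by
  refine tendsto_atTop_mono' _ ?_ tendsto_id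
  filter_upwards [eventually_ge_atTop 0] with x hx
  exact Real.self_le_sinh_iff.2 hx

lemma tendsto_sinh_atBot : Tendsto Real.sinh atBot atBot := by
  have := (tendsto_sinh_atTop.comp tendsto_neg_atBot_atTop)
  have h2 := tendsto_neg_atTop_atBot.comp this
  refine h2.congr fun x => ?_
  simp [Real.sinh_neg]

lemma integral_inv_cosh : ∫ x : ℝ, (Real.cosh x)⁻¹ = Real.pi := by
  have hd : ∀ x : ℝ, HasDerivAt (fun x => Real.arctan (Real.sinh x)) ((Real.cosh x)⁻¹) x := by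
    intro x
    refine ((Real.hasDerivAt_sinh x).arctan).congr_deriv ?_
    have h := Real.cosh_sq x
    have h0 := (Real.cosh_pos x).ne'
    rw [show 1 + Real.sinh x ^ 2 = Real.cosh x ^ 2 by linarith]
    field_simp
  rw [integral_of_hasDerivAt_of_tendsto hd integrable_inv_cosh
    ((tendsto_nhds_of_tendsto_nhdsWithin Real.tendsto_arctan_atBot).comp tendsto_sinh_atBot)
    ((tendsto_nhds_of_tendsto_nhdsWithin Real.tendsto_arctan_atTop).comp tendsto_sinh_atTop)]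
  ring

lemma tendsto_inv_cosh_atTop : Tendsto (fun x : ℝ => (Real.cosh x)⁻¹) atTop (𝓝 0) := by
  have h : Tendsto Real.cosh atTop atTop := by
    refine tendsto_atTop_mono (fun x => ?_) tendsto_sinh_atTop
    exact (Real.sinh_lt_cosh x).le
  exact h.inv_tendsto_atTop

lemma tendsto_inv_cosh_atBot : Tendsto (fun x : ℝ => (Real.cosh x)⁻¹) atBot (𝓝 0) := by
  have := tendsto_inv_cosh_atTop.comp tendsto_neg_atBot_atTop
  refine this.congr fun x => ?_
  simp [Real.cosh_neg]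

lemma integral_inv_cosh_cube : ∫ x : ℝ, (Real.cosh x)⁻¹ ^ 3 = Real.pi / 2 := by
  have hd : ∀ x : ℝ, HasDerivAt
      (fun x => (1 / 2 : ℝ) * (Real.sinh x * ((Real.cosh x)⁻¹) ^ 2 + Real.arctan (Real.sinh x)))
      ((Real.cosh x)⁻¹ ^ 3) x := by
    intro x
    have h1 : HasDerivAt (fun x : ℝ => (Real.cosh x)⁻¹) (-Real.sinh x / Real.cosh x ^ 2) x :=
      (Real.hasDerivAt_cosh x).inv (Real.cosh_pos x).ne'
    have h2 := (((Real.hasDerivAt_sinh x).fun_mul (h1.fun_pow 2)).fun_add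
      (Real.hasDerivAt_sinh x).arctan).const_mul (1 / 2 : ℝ)
    refine h2.congr_deriv ?_
    have h := Real.cosh_sq x
    have h0 := (Real.cosh_pos x).ne'
    rw [show 1 + Real.sinh x ^ 2 = Real.cosh x ^ 2 by linarith]
    simp only [Nat.cast_ofNat, Nat.add_one_sub_one, pow_one]
    field_simp
    nlinarith
  have hb : ∀ x : ℝ, |Real.sinh x * ((Real.cosh x)⁻¹) ^ 2| ≤ (Real.cosh x)⁻¹ := by
    intro x
    have h0 := Real.cosh_pos x
    rw [abs_mul, abs_of_nonneg (by positivity : (0 : ℝ) ≤ (Real.cosh x)⁻¹ ^ 2)]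
    have h1 : |Real.sinh x| ≤ Real.cosh x := by
      apply abs_le_of_sq_le_sq _ h0.le
      have := Real.cosh_sq x
      linarith
    calc |Real.sinh x| * (Real.cosh x)⁻¹ ^ 2 ≤ Real.cosh x * (Real.cosh x)⁻¹ ^ 2 := by gcongr
      _ = (Real.cosh x)⁻¹ := by field_simp
  have ht : Tendsto (fun x : ℝ => Real.sinh x * ((Real.cosh x)⁻¹) ^ 2) atTop (𝓝 0) :=
    squeeze_zero_norm hb tendsto_inv_cosh_atTop
  have ht' : Tendsto (fun x : ℝ => Real.sinh x * ((Real.cosh x)⁻¹) ^ 2) atBot (𝓝 0) :=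
    squeeze_zero_norm hb tendsto_inv_cosh_atBot
  have e1 := (ht'.add ((tendsto_nhds_of_tendsto_nhdsWithin
    Real.tendsto_arctan_atBot).comp tendsto_sinh_atBot)).const_mul (1 / 2 : ℝ)
  have e2 := (ht.add ((tendsto_nhds_of_tendsto_nhdsWithin
    Real.tendsto_arctan_atTop).comp tendsto_sinh_atTop)).const_mul (1 / 2 : ℝ)
  rw [integral_of_hasDerivAt_of_tendsto hd integrable_inv_cosh_cube e1 e2]
  ring

/-- The optimizer. -/
noncomputable def wf (x : ℝ) : ℝ := (Real.sqrt (Real.cosh x))⁻¹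

lemma wf_sq (x : ℝ) : wf x ^ 2 = (Real.cosh x)⁻¹ := by
  rw [wf, inv_pow, Real.sq_sqrt (Real.cosh_pos x).le]

lemma contDiff_wf : ContDiff ℝ 1 wf := by
  unfold wf
  refine ContDiff.inv (Real.contDiff_cosh.sqrt fun x => (Real.cosh_pos x).ne') fun x => ?_
  exact (Real.sqrt_pos.2 (Real.cosh_pos x)).ne'

/-- The derivative of the optimizer. -/
noncomputable def wf' (x : ℝ) : ℝ := -(1 / 2) * (Real.sinh x * (Real.cosh x)⁻¹) * wf x

lemma hasDerivAt_wf (x : ℝ) : HasDerivAt wf (wf' x) x := by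
  have h0 := Real.cosh_pos x
  have hs := Real.sqrt_pos.2 h0
  have h1 := ((Real.hasDerivAt_cosh x).sqrt h0.ne').inv hs.ne'
  refine h1.congr_deriv ?_
  rw [wf', wf]
  have h2 : Real.sqrt (Real.cosh x) ^ 2 = Real.cosh x := Real.sq_sqrt h0.le
  rw [h2]
  field_simp

lemma wf'_sq (x : ℝ) : wf' x ^ 2 = 1 / 4 * ((Real.cosh x)⁻¹ - (Real.cosh x)⁻¹ ^ 3) := by
  have h0 := (Real.cosh_pos x).ne'
  rw [wf', mul_pow, wf_sq]
  have := Real.cosh_sq x
  field_simp
  nlinarith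

lemma abs_wf'_le (x : ℝ) : |wf' x| ≤ 1 / 2 * wf x := by
  have h0 := Real.cosh_pos x
  have hw : 0 ≤ wf x := inv_nonneg.2 (Real.sqrt_nonneg _)
  rw [wf', abs_mul, abs_of_nonneg hw, abs_mul, abs_neg, abs_of_nonneg (by norm_num : (0 : ℝ) ≤ 1 / 2)]
  have h1 : |Real.sinh x| ≤ Real.cosh x := by
    apply abs_le_of_sq_le_sq _ h0.le
    have := Real.cosh_sq x
    linarith
  have h2 : |Real.sinh x * (Real.cosh x)⁻¹| ≤ 1 := by
    rw [abs_mul, abs_of_nonneg (inv_nonneg.2 h0.le), ← div_eq_mul_inv, div_le_one h0]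
    exact h1
  nlinarith

lemma integral_wf'_sq : ∫ x : ℝ, wf' x ^ 2 = Real.pi / 8 := by
  simp only [wf'_sq]
  rw [integral_const_mul, integral_sub integrable_inv_cosh integrable_inv_cosh_cube,
    integral_inv_cosh, integral_inv_cosh_cube]
  ring

/-- The smooth cut-off. -/
noncomputable def chi : ContDiffBump (0 : ℝ) := ⟨1, 2, one_pos, one_lt_two⟩

lemma chi_zero : chi 0 = 1 := chi.one_of_mem_closedBall (by simp [chi])

lemma contDiff_chi : ContDiff ℝ 1 (chi : ℝ → ℝ) := chi.contDiff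

/-- Truncated optimizers. -/
noncomputable def gn (n : ℕ) (x : ℝ) : ℝ := wf x * chi (x / (n + 1))

/-- Their derivatives. -/
noncomputable def gn' (n : ℕ) (x : ℝ) : ℝ :=
  wf' x * chi (x / (n + 1)) + wf x * (deriv chi (x / (n + 1)) * (1 / (n + 1)))

lemma contDiff_gn (n : ℕ) : ContDiff ℝ 1 (gn n) :=
  contDiff_wf.mul (contDiff_chi.comp (contDiff_id.div_const _))

lemma hasDerivAt_gn (n : ℕ) (x : ℝ) : HasDerivAt (gn n) (gn' n x) x := by
  have h1 : HasDerivAt (fun x : ℝ => x / ((n : ℝ) + 1)) (1 / ((n : ℝ) + 1)) x :=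
    (hasDerivAt_id x).div_const _
  have h2 : HasDerivAt (chi : ℝ → ℝ) (deriv chi (x / ((n : ℝ) + 1))) (x / ((n : ℝ) + 1)) :=
    ((contDiff_chi.differentiable one_ne_zero) _).hasDerivAt
  have h3 : HasDerivAt (fun x : ℝ => (chi : ℝ → ℝ) (x / ((n : ℝ) + 1)))
      (deriv chi (x / ((n : ℝ) + 1)) * (1 / ((n : ℝ) + 1))) x :=
    HasDerivAt.comp (h₂ := (chi : ℝ → ℝ)) (h := fun x : ℝ => x / ((n : ℝ) + 1)) x h2 h1
  exact (hasDerivAt_wf x).mul h3

lemma hasCompactSupport_gn (n : ℕ) : HasCompactSupport (gn n) := by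
  refine HasCompactSupport.intro (K := Set.Icc (-(2 * ((n : ℝ) + 1))) (2 * ((n : ℝ) + 1)))
    isCompact_Icc fun x hx => ?_
  have hn : (0 : ℝ) < (n : ℝ) + 1 := by positivity
  have h1 : 2 * ((n : ℝ) + 1) ≤ |x| := by
    by_contra hlt
    have := abs_lt.1 (not_le.1 hlt)
    exact hx ⟨this.1.le, this.2.le⟩
  have h2 : chi (x / ((n : ℝ) + 1)) = 0 := by
    apply chi.zero_of_le_dist
    rw [Real.dist_eq, sub_zero, abs_div, abs_of_pos hn, le_div_iff₀ hn]
    exact h1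
  rw [gn, h2, mul_zero]

lemma wf_nonneg (x : ℝ) : 0 ≤ wf x := inv_nonneg.2 (Real.sqrt_nonneg _)

lemma continuous_wf : Continuous wf := contDiff_wf.continuous

lemma continuous_wf' : Continuous wf' := by
  unfold wf'
  exact (continuous_const.mul (Real.continuous_sinh.mul continuous_inv_cosh)).mul continuous_wf

lemma continuous_gn' (n : ℕ) : Continuous (gn' n) := by
  have h1 : Continuous (deriv (chi : ℝ → ℝ)) := contDiff_chi.continuous_deriv le_rfl
  have h2 : Continuous fun x : ℝ => x / ((n : ℝ) + 1) := continuous_id.div_const _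
  exact (continuous_wf'.mul (contDiff_chi.continuous.comp h2)).add
    (continuous_wf.mul ((h1.comp h2).mul continuous_const))

lemma tendsto_div_nat (x : ℝ) : Tendsto (fun n : ℕ => x / ((n : ℝ) + 1)) atTop (𝓝 0) := by
  have := (tendsto_one_div_add_atTop_nhds_zero_nat (𝕜 := ℝ)).const_mul x
  rw [mul_zero] at this
  refine this.congr fun n => ?_
  ring

lemma tendsto_chi (x : ℝ) : Tendsto (fun n : ℕ => chi (x / ((n : ℝ) + 1))) atTop (𝓝 1) := by
  have := (contDiff_chi.continuous.tendsto 0).comp (tendsto_div_nat x)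
  rwa [chi_zero] at this

lemma tendsto_gn (x : ℝ) : Tendsto (fun n : ℕ => gn n x) atTop (𝓝 (wf x)) := by
  have := (tendsto_chi x).const_mul (wf x)
  simpa [gn] using this

lemma exists_chi_bound : ∃ C : ℝ, 0 ≤ C ∧ ∀ y : ℝ, |deriv chi y| ≤ C := by
  obtain ⟨C, hC⟩ := (chi.hasCompactSupport.deriv).exists_bound_of_continuous
    (contDiff_chi.continuous_deriv le_rfl)
  exact ⟨C, (norm_nonneg _).trans (hC 0), fun y => by simpa [Real.norm_eq_abs] using hC y⟩

lemma tendsto_gn' (x : ℝ) : Tendsto (fun n : ℕ => gn' n x) atTop (𝓝 (wf' x)) := by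
  obtain ⟨C, hC0, hC⟩ := exists_chi_bound
  have h1 := (tendsto_chi x).const_mul (wf' x)
  have h2 : Tendsto (fun n : ℕ => deriv chi (x / ((n : ℝ) + 1)) * (1 / ((n : ℝ) + 1))) atTop
      (𝓝 0) := by
    have h3 := (tendsto_one_div_add_atTop_nhds_zero_nat (𝕜 := ℝ)).const_mul C
    rw [mul_zero] at h3
    refine squeeze_zero_norm (fun n => ?_) h3
    rw [norm_mul, Real.norm_eq_abs, Real.norm_of_nonneg (by positivity)]
    exact mul_le_mul_of_nonneg_right (hC _) (by positivity)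
  have h4 := h1.add (h2.const_mul (wf x))
  simpa [gn'] using h4

lemma gn_nonneg (n : ℕ) (x : ℝ) : 0 ≤ gn n x := mul_nonneg (wf_nonneg x) chi.nonneg

lemma gn_le (n : ℕ) (x : ℝ) : gn n x ≤ wf x := by
  have := mul_le_mul_of_nonneg_left (chi.le_one (x := x / ((n : ℝ) + 1))) (wf_nonneg x)
  simpa [gn] using this

lemma tendsto_mass : Tendsto (fun n : ℕ => ∫ x, gn n x ^ 2) atTop (𝓝 Real.pi) := by
  rw [← integral_inv_cosh]
  refine tendsto_integral_of_dominated_convergence (fun x => (Real.cosh x)⁻¹) ?_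
    integrable_inv_cosh ?_ ?_
  · exact fun n => ((contDiff_gn n).continuous.pow 2).aestronglyMeasurable
  · refine fun n => Eventually.of_forall fun x => ?_
    rw [Real.norm_of_nonneg (by positivity), ← wf_sq]
    exact pow_le_pow_left₀ (gn_nonneg n x) (gn_le n x) 2
  · refine Eventually.of_forall fun x => ?_
    have := (tendsto_gn x).pow 2
    rwa [wf_sq] at this

lemma tendsto_six : Tendsto (fun n : ℕ => ∫ x, gn n x ^ 6) atTop (𝓝 (Real.pi / 2)) := by
  rw [← integral_inv_cosh_cube]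
  have h6 : ∀ x, wf x ^ 6 = (Real.cosh x)⁻¹ ^ 3 := fun x => by
    rw [← wf_sq, ← pow_mul]
  refine tendsto_integral_of_dominated_convergence (fun x => (Real.cosh x)⁻¹ ^ 3) ?_
    integrable_inv_cosh_cube ?_ ?_
  · exact fun n => ((contDiff_gn n).continuous.pow 6).aestronglyMeasurable
  · refine fun n => Eventually.of_forall fun x => ?_
    rw [Real.norm_of_nonneg (by positivity), ← h6]
    exact pow_le_pow_left₀ (gn_nonneg n x) (gn_le n x) 6
  · refine Eventually.of_forall fun x => ?_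
    have := (tendsto_gn x).pow 6
    rwa [h6] at this

lemma tendsto_kin : Tendsto (fun n : ℕ => ∫ x, gn' n x ^ 2) atTop (𝓝 (Real.pi / 8)) := by
  obtain ⟨C, hC0, hC⟩ := exists_chi_bound
  rw [← integral_wf'_sq]
  refine tendsto_integral_of_dominated_convergence (fun x => (1 / 2 + C) ^ 2 * (Real.cosh x)⁻¹) ?_
    (integrable_inv_cosh.const_mul _) ?_ ?_
  · exact fun n => ((continuous_gn' n).pow 2).aestronglyMeasurable
  · refine fun n => Eventually.of_forall fun x => ?_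
    rw [Real.norm_of_nonneg (by positivity), ← wf_sq, ← mul_pow, ← sq_abs]
    refine pow_le_pow_left₀ (abs_nonneg _) ?_ 2
    have h1 : |wf' x * chi (x / ((n : ℝ) + 1))| ≤ 1 / 2 * wf x := by
      rw [abs_mul, abs_of_nonneg chi.nonneg]
      have := abs_wf'_le x
      have h2 : chi (x / ((n : ℝ) + 1)) ≤ 1 := chi.le_one
      have h3 : 0 ≤ chi (x / ((n : ℝ) + 1)) := chi.nonneg
      nlinarith [abs_nonneg (wf' x)]
    have h4 : |wf x * (deriv chi (x / ((n : ℝ) + 1)) * (1 / ((n : ℝ) + 1)))| ≤ C * wf x := by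
      rw [abs_mul, abs_mul, abs_of_nonneg (wf_nonneg x),
        abs_of_nonneg (by positivity : (0 : ℝ) ≤ 1 / ((n : ℝ) + 1)), mul_comm]
      apply mul_le_mul_of_nonneg_right _ (wf_nonneg x)
      have h5 : (1 : ℝ) / ((n : ℝ) + 1) ≤ 1 := by
        rw [div_le_one (by positivity)]
        have : (0 : ℝ) ≤ n := by positivity
        linarith
      have h6 := hC (x / ((n : ℝ) + 1))
      have h7 : (0 : ℝ) ≤ 1 / ((n : ℝ) + 1) := by positivity
      nlinarith [abs_nonneg (deriv chi (x / ((n : ℝ) + 1)))]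
    calc |gn' n x| ≤ |wf' x * chi (x / ((n : ℝ) + 1))|
          + |wf x * (deriv chi (x / ((n : ℝ) + 1)) * (1 / ((n : ℝ) + 1)))| := abs_add_le _ _
      _ ≤ (1 / 2 + C) * wf x := by linarith
  · refine Eventually.of_forall fun x => ?_
    exact (tendsto_gn' x).pow 2

/-- Near-optimal functions. -/
theorem exists_near_opt {ε : ℝ} (hε : 0 < ε) : ∃ u : ℝ → ℂ, ContDiff ℝ 1 u ∧ HasCompactSupport u ∧
    0 < (∫ x, ‖u x‖ ^ 2) ∧ 0 < (∫ x, ‖u x‖ ^ 6) ∧
    (∫ x, ‖deriv u x‖ ^ 2) * (∫ x, ‖u x‖ ^ 2) ^ 2 / (∫ x, ‖u x‖ ^ 6) < Real.pi ^ 2 / 4 + ε := by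
  have h1 : Tendsto (fun n : ℕ => (∫ x, gn' n x ^ 2) * (∫ x, gn n x ^ 2) ^ 2 / ∫ x, gn n x ^ 6)
      atTop (𝓝 (Real.pi / 8 * Real.pi ^ 2 / (Real.pi / 2))) :=
    (tendsto_kin.mul (tendsto_mass.pow 2)).div tendsto_six (by positivity)
  have h2 : Real.pi / 8 * Real.pi ^ 2 / (Real.pi / 2) = Real.pi ^ 2 / 4 := by
    field_simp; ring
  rw [h2] at h1
  obtain ⟨n, hn1, hn2, hn3⟩ := ((h1.eventually_lt_const (show Real.pi ^ 2 / 4
    < Real.pi ^ 2 / 4 + ε by linarith)).and ((tendsto_mass.eventually_const_lt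
      Real.pi_pos).and (tendsto_six.eventually_const_lt (by positivity)))).exists
  have hd : ∀ x, deriv (fun x => ((gn n x : ℝ) : ℂ)) x = ((gn' n x : ℝ) : ℂ) := fun x =>
    (hasDerivAt_gn n x).ofReal_comp.deriv
  refine ⟨fun x => ((gn n x : ℝ) : ℂ), Complex.ofRealCLM.contDiff.comp (contDiff_gn n),
    (hasCompactSupport_gn n).comp_left Complex.ofReal_zero, ?_, ?_, ?_⟩
  · simpa [Complex.norm_real, sq_abs] using hn2
  · have : ∀ x, ‖((gn n x : ℝ) : ℂ)‖ ^ 6 = gn n x ^ 6 := fun x => by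
      rw [Complex.norm_real, Real.norm_of_nonneg (gn_nonneg n x)]
    simpa only [this] using hn3
  · have e1 : ∀ x, ‖((gn n x : ℝ) : ℂ)‖ ^ 6 = gn n x ^ 6 := fun x => by
      rw [Complex.norm_real, Real.norm_of_nonneg (gn_nonneg n x)]
    have e2 : ∀ x, ‖((gn n x : ℝ) : ℂ)‖ ^ 2 = gn n x ^ 2 := fun x => by
      rw [Complex.norm_real, Real.norm_of_nonneg (gn_nonneg n x)]
    have e3 : ∀ x, ‖((gn' n x : ℝ) : ℂ)‖ ^ 2 = gn' n x ^ 2 := fun x => by
      rw [Complex.norm_real, Real.norm_eq_abs, sq_abs]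
    simp only [hd, e1, e2, e3]
    exact hn1

end Pool.Agent.W779.LT
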