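import Pool.Agent.W779.LT.Kinetic
import Pool.Agent.W779.LT.Sharp

/-!
Orthonormal families, the one-particle constant and the transfer to `EuclideanSpace ℝ (Fin 1)`.
-/

set_option autoImplicit false

namespace Pool.Agent.W779.LT

open MeasureTheory

variable {N : ℕ}

lemma orthonormal_quad (u : Fin N → ℝ → ℂ) (hu : ∀ n, ContDiff ℝ 1 (u n))
    (hc : ∀ n, HasCompactSupport (u n))
    (ho : ∀ n m, ∫ x, star (u n x) * u m x = if n = m then (1 : ℂ) else 0) (v : Fin N → ℂ) :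
    ∫ x, ‖∑ n, star (v n) * u n x‖ ^ 2 = ∑ n, ‖v n‖ ^ 2 := by
  have hint : ∀ n m, Integrable (fun x => star (v n) * (v m * (star (u m x) * u n x))) := by
    intro n m
    have h1 : Continuous fun x => star (u m x) * u n x := (hu m).continuous.star.mul (hu n).continuous
    have h2 : Integrable (fun x => star (u m x) * u n x) :=
      h1.integrable_of_hasCompactSupport ((hc n).mul_left)
    exact (h2.const_mul _).const_mul _
  have h : ((∫ x, ‖∑ n, star (v n) * u n x‖ ^ 2 : ℝ) : ℂ) = ((∑ n, ‖v n‖ ^ 2 : ℝ) : ℂ) := by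
    have e1 : ∀ x, ((‖∑ n, star (v n) * u n x‖ ^ 2 : ℝ) : ℂ)
        = ∑ n, ∑ m, star (v n) * (v m * (star (u m x) * u n x)) := by
      intro x
      rw [← Complex.normSq_eq_norm_sq, ← Complex.mul_conj, map_sum, Finset.sum_mul_sum]
      refine Finset.sum_congr rfl fun i _ => Finset.sum_congr rfl fun j _ => ?_
      simp only [map_mul, Complex.star_def, Complex.conj_conj]
      ring
    have e0 : (∫ x, ((‖∑ n, star (v n) * u n x‖ ^ 2 : ℝ) : ℂ))
        = ((∫ x, ‖∑ n, star (v n) * u n x‖ ^ 2 : ℝ) : ℂ) := integral_ofReal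
    have e2 : (∫ x, ((‖∑ n, star (v n) * u n x‖ ^ 2 : ℝ) : ℂ))
        = ∫ x, ∑ n, ∑ m, star (v n) * (v m * (star (u m x) * u n x)) :=
      integral_congr_ae (Filter.Eventually.of_forall e1)
    rw [← e0, e2]
    rw [integral_finsetSum _ fun n _ => integrable_finsetSum _ fun m _ => hint n m]
    rw [Complex.ofReal_sum]
    refine Finset.sum_congr rfl fun n _ => ?_
    rw [integral_finsetSum _ fun m _ => hint n m]
    simp only [integral_const_mul, ho]
    rw [Finset.sum_eq_single n]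
    · rw [if_pos rfl, mul_one, ← Complex.normSq_eq_norm_sq, ← Complex.mul_conj, Complex.star_def,
        mul_comm]
    · intro m _ hm
      rw [if_neg hm]; ring
    · intro hn
      exact absurd (Finset.mem_univ n) hn
  exact_mod_cast h

/-- The sharp inequality for orthonormal families on the line. -/
theorem kinetic_orthonormal (u : Fin N → ℝ → ℂ) (hu : ∀ n, ContDiff ℝ 1 (u n))
    (hc : ∀ n, HasCompactSupport (u n))
    (ho : ∀ n m, ∫ x, star (u n x) * u m x = if n = m then (1 : ℂ) else 0) :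
    Real.pi ^ 2 / 4 * ∫ x, (∑ n, ‖u n x‖ ^ 2) ^ 3 ≤ ∑ n, ∫ x, ‖deriv (u n) x‖ ^ 2 :=
  kinetic u hu hc fun v => (orthonormal_quad u hu hc ho v).le

lemma integral_pos_of_ne {g : ℝ → ℝ} (hg : Continuous g) (hc : HasCompactSupport g)
    (h0 : ∀ x, 0 ≤ g x) {x : ℝ} (hx : g x ≠ 0) : 0 < ∫ x, g x :=
  hg.integral_pos_of_hasCompactSupport_nonneg_nonzero hc h0 hx

lemma hasCompactSupport_rho {u : Fin N → ℝ → ℂ} (hc : ∀ n, HasCompactSupport (u n)) :
    HasCompactSupport fun x => (∑ n, ‖u n x‖ ^ 2) ^ 3 := by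
  classical
  have hK : IsCompact (⋃ n, tsupport (u n)) := isCompact_iUnion fun n => (hc n).isCompact
  refine HasCompactSupport.intro hK fun x hx => ?_
  have : ∀ n, u n x = 0 := fun n => by
    apply image_eq_zero_of_notMem_tsupport
    intro h
    exact hx (Set.mem_iUnion.2 ⟨n, h⟩)
  simp [this]

theorem ratio_ge (u : Fin N → ℝ → ℂ) (hN : 0 < N) (hu : ∀ n, ContDiff ℝ 1 (u n))
    (hc : ∀ n, HasCompactSupport (u n))
    (ho : ∀ n m, ∫ x, star (u n x) * u m x = if n = m then (1 : ℂ) else 0) :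
    Real.pi ^ 2 / 4 ≤ (∑ n, ∫ x, ‖deriv (u n) x‖ ^ 2) / ∫ x, (∑ n, ‖u n x‖ ^ 2) ^ 3 := by
  have hpos : 0 < ∫ x, (∑ n, ‖u n x‖ ^ 2) ^ 3 := by
    have hcont : Continuous fun x => (∑ n, ‖u n x‖ ^ 2) ^ 3 :=
      (continuous_finsetSum _ fun n _ => (hu n).continuous.norm.pow 2).pow 3
    obtain ⟨x, hx⟩ : ∃ x, u ⟨0, hN⟩ x ≠ 0 := by
      by_contra hcon
      push Not at hcon
      have := ho ⟨0, hN⟩ ⟨0, hN⟩
      simp [hcon] at this
    refine integral_pos_of_ne hcont (hasCompactSupport_rho hc) (fun x => by positivity) (x := x) ?_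
    apply pow_ne_zero
    have h1 : 0 < ‖u ⟨0, hN⟩ x‖ ^ 2 := by positivity
    have h2 : ‖u ⟨0, hN⟩ x‖ ^ 2 ≤ ∑ n, ‖u n x‖ ^ 2 :=
      Finset.single_le_sum (f := fun n => ‖u n x‖ ^ 2) (fun _ _ => by positivity)
        (Finset.mem_univ _)
    linarith
  rw [le_div_iff₀ hpos]
  exact kinetic_orthonormal u hu hc ho

/-- Normalisation of a single function. -/
lemma normalise (u : ℝ → ℂ) (hu : ContDiff ℝ 1 u) (hc : HasCompactSupport u)
    (hM : 0 < ∫ x, ‖u x‖ ^ 2) :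
    ∃ v : Fin 1 → ℝ → ℂ, (∀ n, ContDiff ℝ 1 (v n)) ∧ (∀ n, HasCompactSupport (v n)) ∧
      (∀ n m, ∫ x, star (v n x) * v m x = if n = m then (1 : ℂ) else 0) ∧
      (∑ n, ∫ x, ‖deriv (v n) x‖ ^ 2) / (∫ x, (∑ n, ‖v n x‖ ^ 2) ^ 3)
        = (∫ x, ‖deriv u x‖ ^ 2) * (∫ x, ‖u x‖ ^ 2) ^ 2 / (∫ x, ‖u x‖ ^ 6) := by
  set M := ∫ x, ‖u x‖ ^ 2 with hMdef
  set c : ℝ := (Real.sqrt M)⁻¹ with hcdef
  have hsM : 0 < Real.sqrt M := Real.sqrt_pos.2 hM
  have hc2 : c ^ 2 = M⁻¹ := by rw [hcdef, inv_pow, Real.sq_sqrt hM.le]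
  have hcpos : 0 < c := inv_pos.2 hsM
  refine ⟨fun _ x => (c : ℂ) * u x, fun _ => contDiff_const.mul hu, fun _ => hc.mul_left, ?_, ?_⟩
  · intro n m
    rw [if_pos (Subsingleton.elim n m)]
    have e1 : ∀ x, star ((c : ℂ) * u x) * ((c : ℂ) * u x) = ((c ^ 2 * ‖u x‖ ^ 2 : ℝ) : ℂ) := by
      intro x
      rw [Complex.ofReal_mul, ← Complex.normSq_eq_norm_sq, ← Complex.mul_conj, star_mul',
        Complex.star_def, Complex.conj_ofReal]
      push_cast; ring
    simp only [e1]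
    have e2 : (∫ x, ((c ^ 2 * ‖u x‖ ^ 2 : ℝ) : ℂ)) = ((∫ x, c ^ 2 * ‖u x‖ ^ 2 : ℝ) : ℂ) :=
      integral_ofReal
    rw [e2, integral_const_mul, ← hMdef, hc2, inv_mul_cancel₀ hM.ne', Complex.ofReal_one]
  · have hd : ∀ x, deriv (fun x => (c : ℂ) * u x) x = (c : ℂ) * deriv u x := fun x =>
      deriv_const_mul _ ((hu.differentiable one_ne_zero) x)
    simp only [hd, norm_mul, Complex.norm_real, Real.norm_of_nonneg hcpos.le, mul_pow,
      Finset.univ_unique, Finset.sum_singleton, integral_const_mul]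
    have e3 : ∀ x, (‖u x‖ ^ 2) ^ 3 = ‖u x‖ ^ 6 := fun x => by rw [← pow_mul]
    simp only [e3, hc2]
    by_cases h6 : (∫ x, ‖u x‖ ^ 6) = 0
    · simp [h6]
    · field_simp

theorem one_ratio_ge (u : ℝ → ℂ) (hu : ContDiff ℝ 1 u) (hc : HasCompactSupport u) (h0 : u ≠ 0) :
    Real.pi ^ 2 / 4 ≤ (∫ x, ‖deriv u x‖ ^ 2) * (∫ x, ‖u x‖ ^ 2) ^ 2 / (∫ x, ‖u x‖ ^ 6) := by
  have hM : 0 < ∫ x, ‖u x‖ ^ 2 := by
    obtain ⟨x, hx⟩ : ∃ x, u x ≠ 0 := by
      by_contra hcon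
      push Not at hcon
      exact h0 (funext hcon)
    refine integral_pos_of_ne (hu.continuous.norm.pow 2) ?_ (fun x => by positivity) (x := x)
      (by positivity)
    exact hc.comp_left (g := fun z : ℂ => ‖z‖ ^ 2) (by simp)
  obtain ⟨v, hv1, hv2, hv3, hv4⟩ := normalise u hu hc hM
  rw [← hv4]
  exact ratio_ge v one_pos hv1 hv2 hv3

/-! ### Transfer -/

lemma norm_single_one : ‖(EuclideanSpace.single (0 : Fin 1) (1 : ℝ))‖ = 1 := by simp

/-- The isometry from the line to the one-dimensional Euclidean space. -/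
noncomputable def L1 : ℝ ≃ₗᵢ[ℝ] EuclideanSpace ℝ (Fin 1) :=
  (LinearIsometry.toSpanSingleton ℝ (EuclideanSpace ℝ (Fin 1)) norm_single_one).toLinearIsometryEquiv
    (by simp)

lemma L1_apply (t : ℝ) : L1 t = t • EuclideanSpace.single (0 : Fin 1) (1 : ℝ) := rfl

lemma integral_L1 {E : Type*} [NormedAddCommGroup E] [NormedSpace ℝ E]
    (F : EuclideanSpace ℝ (Fin 1) → E) : ∫ x, F x = ∫ t : ℝ, F (L1 t) :=
  (L1.measurePreserving.integral_comp L1.toHomeomorph.measurableEmbedding F).symm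

lemma deriv_L1 {u : EuclideanSpace ℝ (Fin 1) → ℂ} (hu : ContDiff ℝ 1 u) (t : ℝ) (i : Fin 1) :
    deriv (fun t => u (L1 t)) t = fderiv ℝ u (L1 t) (EuclideanSpace.single i (1 : ℝ)) := by
  have h1 : HasFDerivAt u (fderiv ℝ u (L1 t)) (L1 t) :=
    (hu.differentiable one_ne_zero _).hasFDerivAt
  have h2 : HasDerivAt (fun t : ℝ => L1 t) (L1 1) t := by
    have := L1.toContinuousLinearEquiv.toContinuousLinearMap.hasDerivAt (x := t)
    simpa using this
  have h3 := h1.comp_hasDerivAt t h2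
  have h4 : L1 1 = EuclideanSpace.single i (1 : ℝ) := by
    rw [L1_apply, one_smul, Subsingleton.elim i 0]
  rw [← h4]
  exact h3.deriv

lemma contDiff_L1 {u : EuclideanSpace ℝ (Fin 1) → ℂ} (hu : ContDiff ℝ 1 u) :
    ContDiff ℝ 1 fun t => u (L1 t) := hu.comp L1.contDiff

lemma hasCompactSupport_L1 {u : EuclideanSpace ℝ (Fin 1) → ℂ} (hu : HasCompactSupport u) :
    HasCompactSupport fun t => u (L1 t) :=
  hu.comp_homeomorph L1.toHomeomorph

end Pool.Agent.W779.LT
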